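import Pool.Agent.W559.Et.Stm2

/-!
# Two levels: the base algebras and the charts of the first level

Adapted from `Pool.Agent.W559.Mg.V4`, `V5` (helper559).
-/

set_option autoImplicit false
set_option linter.unusedSectionVars false

universe u v w

namespace Pool.Agent.W327.Et

open Pool.Agent.W559.Mg Pool.Agent.W559.Et

section base

variable {k K : Type u} [Field k] [Field K] [Algebra k K]

lemma chd_of_c {f : ML K G3} (h : ∀ d, f.coeff d ≠ 0 → co2 d = 0) : chd k fo2 f = f := by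
  conv_lhs => rw [eq_sum_mo f]
  conv_rhs => rw [eq_sum_mo f]
  rw [map_sum]
  refine Finset.sum_congr rfl fun d hd => ?_
  rw [chd_mo]
  have h1 := h d (Finsupp.mem_support_iff.1 hd)
  have h2 : fo2 d = d := by
    change dg d.1 0 d.2.2.1 = d
    have h3 : d = dg d.1 (co2 d) d.2.2.1 := eq_dg d
    rw [h1] at h3
    exact h3.symm
  rw [h2]

/-- The algebra of Laurent polynomials in the second direction. -/
noncomputable def RT (R : Subalgebra k (ML K G3)) : Subalgebra k (ML K G3) :=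
  Algebra.adjoin k ((R : Set (ML K G3)) ∪ {mo (dg 0 1 0) 1, mo (dg 0 (-1) 0) 1})

variable {R : Subalgebra k (ML K G3)}

lemma le_RT : R ≤ RT R := fun _ hf => Algebra.subset_adjoin (Or.inl hf)

lemma RT_T : mo (dg 0 1 0) 1 ∈ RT R := Algebra.subset_adjoin (Or.inr (Or.inl rfl))

lemma RT_T' : mo (dg 0 (-1) 0) 1 ∈ RT R := Algebra.subset_adjoin (Or.inr (Or.inr rfl))

lemma RT_le {Z : Subalgebra k (ML K G3)} (hR : R ≤ Z) (hT : mo (dg 0 1 0) 1 ∈ Z)
    (hT' : mo (dg 0 (-1) 0) 1 ∈ Z) : RT R ≤ Z := by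
  unfold RT
  rw [Algebra.adjoin_le_iff]
  rintro f (hf | (hf | hf))
  · exact hR hf
  · rw [hf]; exact hT
  · rw [Set.mem_singleton_iff.1 hf]; exact hT'

lemma pow_T_mem {Z : Subalgebra k (ML K G3)} (hT : mo (dg 0 1 0) 1 ∈ Z)
    (hT' : mo (dg 0 (-1) 0) 1 ∈ Z) (n : ℤ) : mo (dg 0 n 0) 1 ∈ Z := by
  rcases Int.le_total 0 n with h | h
  · obtain ⟨e, rfl⟩ := Int.eq_ofNat_of_zero_le h
    have h1 := Subalgebra.pow_mem _ hT e
    rwa [T_pow] at h1
  · obtain ⟨e, he⟩ := Int.eq_ofNat_of_zero_le (a := -n) (by omega)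
    have h1 := Subalgebra.pow_mem _ hT' e
    rw [T'_pow] at h1
    have h2 : n = -(e : ℤ) := by omega
    rwa [h2]

lemma RT_adj {X : Set (ML K G3)} (hX : Algebra.adjoin k X = R) :
    Algebra.adjoin k (X ∪ {mo (dg 0 1 0) 1, mo (dg 0 (-1) 0) 1}) = RT R := by
  apply le_antisymm
  · rw [Algebra.adjoin_le_iff]
    rintro f (hf | (hf | hf))
    · refine le_RT ?_
      rw [← hX]
      exact Algebra.subset_adjoin hf
    · rw [hf]; exact RT_T
    · rw [Set.mem_singleton_iff.1 hf]; exact RT_T'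
  · refine RT_le ?_ (Algebra.subset_adjoin (Or.inr (Or.inl rfl)))
      (Algebra.subset_adjoin (Or.inr (Or.inr rfl)))
    rw [← hX]
    exact Algebra.adjoin_mono Set.subset_union_left

lemma hom_X {X : Set (ML K G3)} (hX : ∀ y ∈ X, ∃ d a, y = mo d a) :
    ∀ y ∈ X ∪ {mo (dg 0 1 0) 1, mo (dg 0 (-1) 0) 1}, ∃ d a, y = mo d a := by
  rintro f (hf | (hf | hf))
  · exact hX f hf
  · exact ⟨_, _, hf⟩
  · exact ⟨_, _, hf⟩

lemma fg_RT (h : R.FG) : (RT R).FG := by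
  classical
  obtain ⟨s, hs⟩ := h
  refine ⟨s ∪ {mo (dg 0 1 0) 1, mo (dg 0 (-1) 0) 1}, ?_⟩
  rw [← RT_adj hs]
  congr 1
  simp

lemma chd_RT (hc : ∀ f ∈ R, ∀ d, f.coeff d ≠ 0 → co2 d = 0) {f : ML K G3} (hf : f ∈ RT R) :
    chd k fo2 f ∈ R := by
  have h1 : RT R ≤ R.comap (chd k fo2) := by
    refine RT_le ?_ ?_ ?_
    · intro f hf
      change chd k fo2 f ∈ R
      rw [chd_of_c (hc f hf)]
      exact hf
    · change chd k fo2 _ ∈ R; rw [chd_mo, fo2_dg]; exact Subalgebra.one_mem _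
    · change chd k fo2 _ ∈ R; rw [chd_mo, fo2_dg]; exact Subalgebra.one_mem _
  exact h1 hf

lemma RT_g {γ : K →ₐ[k] K} (hg : ∀ f ∈ R, gm G3 γ f ∈ R) : ∀ f ∈ RT R, gm G3 γ f ∈ RT R := by
  have h1 : RT R ≤ (RT R).comap (gm G3 γ) := by
    refine RT_le ?_ ?_ ?_
    · exact fun f hf => le_RT (hg f hf)
    · change gm G3 γ _ ∈ RT R; rw [gm_mo_one]; exact RT_T
    · change gm G3 γ _ ∈ RT R; rw [gm_mo_one]; exact RT_T'
  exact fun f hf => h1 hf

lemma RT_D {σ : K →ₐ[k] K} (hs : mo (dg (-1) 0 0) 1 ∈ R)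
    (hD : ∀ f ∈ R, Dn (dg 1 0 0) σ f ∈ R) : ∀ f ∈ RT R, Dn (dg 1 0 0) σ f ∈ RT R := by
  have hmo : ∀ d : G3, Dn (dg 1 0 0) σ (mo d 1) = 0 := by
    intro d
    have h1 : dl σ (1 : K) = 0 := by unfold dl; rw [map_one, sub_self]
    rw [Dn_mo, h1, mo_zero]
  refine Dn_stable _ rfl _ _ (le_RT hs) ?_
  rintro f (hf | (hf | hf))
  · exact le_RT (hD f hf)
  · rw [hf, hmo]; exact Subalgebra.zero_mem _
  · rw [Set.mem_singleton_iff.1 hf, hmo]; exact Subalgebra.zero_mem _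

/-- The first level. -/
theorem lev1 (hLev : LevelStm.{u}) {γ : K →ₐ[k] K} {p : ℕ} (hp : p.Prime) (hpk : (p : k) = 0)
    (hγ : ∀ x : K, γ^[p * p] x = x) {𝒱 : Set (ValuationSubring K)} {Kf : Subfield K} {𝒜 : Type}
    {W : 𝒜 → Set K} {E : ℕ} {T : Type u} [Finite T] {C : T → Subalgebra k (ML K G3)} {H : T → K}
    (hPB : PB 𝒱 Kf W (fx (gm G3 γ)) E C H) {R : T → Subalgebra k (ML K G3)}
    (hR : R1D γ p C H R) :
    ∃ (J : T → Type u) (_ : ∀ t, Finite (J t)) (μ : ∀ t, J t → G3) (x : ∀ t, J t → K)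
      (φ : ∀ t, J t → G3) (f : ∀ t, J t → K)
      (hm : ∀ t j, IsMark (RT (R t)) co1 γ (γ ^ p) (dg 1 0 0) p (μ t j) (x t j) (φ t j) (f t j))
      (L N : ℕ) (u : (Σ t, J t) → K), (∀ t j, co1 (μ t j) = L) ∧
      (∀ q, u q ≠ 0 ∧ mo (E • μ q.1 q.2) (u q) ∈ C q.1 ⊓ fx (gm G3 γ) ∧
        mo (-(E • μ q.1 q.2)) (u q)⁻¹ ∈ C q.1 ⊓ fx (gm G3 γ)) ∧
      PB 𝒱 Kf W (fx (gm G3 γ)) (E * L) (fun q : Σ t, J t => lc (RT (R q.1))
        (mo (μ q.1 q.2) (x q.1 q.2)) ((hm q.1 q.2).mem (RT_D (hR.s q.1) (hR.D q.1))))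
        (fun q => H q.1 ^ N * (x q.1 q.2 ^ E / u q)) := by
  have hit : ∀ n (x : K), (γ ^ n) x = γ^[n] x := fun n x => pow_app γ n x
  have hneg : ∀ t m a, co1 m ≤ 0 → mo m a ∈ C t ⊓ fx (gm G3 γ) → mo m a ∈ RT (R t) := by
    intro t m a hm ha
    have h1 : mo (dg 0 (-co2 m) 0) 1 * mo m a ∈ C t ⊓ fx (gm G3 γ) := by
      refine Subalgebra.mul_mem _ ⟨pow_T_mem (hR.T t).1 (hR.T t).2 _, ?_⟩ ha
      rw [SetLike.mem_coe, mem_fx, gm_mo_one]
    rw [mo_mul, one_mul] at h1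
    have h2 := hR.neg t _ _ (by rw [map_add, co1_dg, zero_add]; exact hm)
      (by rw [map_add, co2_dg, neg_add_cancel]) h1
    have h3 := Subalgebra.mul_mem _ (pow_T_mem (k := k) (Z := RT (R t)) RT_T RT_T' (co2 m))
      (le_RT h2)
    rw [mo_mul, one_mul, ← add_assoc, dg_add, add_zero, add_neg_cancel, dg_zero, zero_add] at h3
    exact h3
  have hρ : ∀ t t', mo 0 (H t' / H t) ∈ RT (R t) := fun t t' =>
    hneg t _ _ (by rw [map_zero]) (hPB.rt t t')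
  choose X hX1 hX2 hX3 using hR.X
  refine hLev k K G3 𝒱 Kf 𝒜 W γ E T C H hPB co1 (fun t => RT (R t))
    (fun t => RT_le (hR.le t) (hR.T t).1 (hR.T t).2) ?_ hneg ?_ p hp hpk (γ ^ p) (dg 1 0 0) ?_ ?_
    (fun t => RT_g (hR.g t)) (fun t => RT_D (hR.s t) (hR.D t)) (fun t => le_RT (hR.s t)) ?_
    (p * p) (Nat.mul_pos hp.pos hp.pos) ?_ (fun t => X t ∪ {mo (dg 0 1 0) 1, mo (dg 0 (-1) 0) 1})
    (fun t => hom_X (hX1 t)) (fun t => RT_adj (hX2 t)) (fun t => fg_RT (hR.fg t)) ?_ ?_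
  · intro t
    rw [← RT_adj (hX2 t)]
    exact gr_adjoin _ (hom_X (hX1 t))
  · intro t t'
    have h1 : RT (R t') ≤ lc (RT (R t)) (mo 0 (H t' / H t)) (hρ t t') := by
      refine RT_le ?_ (le_lc _ _ _ RT_T) (le_lc _ _ _ RT_T')
      intro f hf
      obtain ⟨n, hn⟩ := hR.gl t t' f hf
      exact ⟨n, le_RT hn⟩
    intro f hf
    exact h1 hf
  · intro x
    rw [hit, hit, ← Function.iterate_succ_apply, Function.iterate_succ_apply']
  · intro x hx
    rw [hit, Function.iterate_fixed hx]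
  · intro t f _
    apply ml_ext
    intro d
    rw [gm_iter_coeff, ← pow_app, ← pow_mul, pow_app, hγ]
  · intro t f _
    apply ml_ext
    intro d
    rw [gm_iter_coeff, hγ]
  · intro t Q hQ hQD d a hda hdX hd
    rcases hdX with hdX | (hf | hf)
    · -- generators of the base
      let ι : R t →ₐ[k] RT (R t) := Subalgebra.inclusion le_RT
      have hQ' : (Q.comap ι).IsPrime := Ideal.IsPrime.comap _
      have hda' : mo d a ∈ R t := by
        rw [← hX2 t]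
        exact Algebra.subset_adjoin hdX
      exact hX3 t (Q.comap ι) hQ' (fun f hf hfR => hQD ⟨f, le_RT hfR⟩) d a hda' hdX hd
    · by_cases ha : a = 0
      · subst ha
        have h1 : (⟨mo d 0, hda⟩ : RT (R t)) = 0 := Subtype.ext (mo_zero d)
        rw [h1]
        exact Q.zero_mem
      · have h1 := (mo_dg_inj hf ha).1
        rw [h1, co1_dg] at hd
        exact absurd hd (lt_irrefl 0)
    · by_cases ha : a = 0
      · subst ha
        have h1 : (⟨mo d 0, hda⟩ : RT (R t)) = 0 := Subtype.ext (mo_zero d)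
        rw [h1]
        exact Q.zero_mem
      · have h1 := (mo_dg_inj (Set.mem_singleton_iff.1 hf) ha).1
        rw [h1, co1_dg] at hd
        exact absurd hd (lt_irrefl 0)
  · intro t
    obtain ⟨d, a, ha, hd, hmem⟩ := hR.pos t
    exact ⟨d, a, ha, hd, le_RT hmem⟩

end base

end Pool.Agent.W327.Et
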