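import Pool.Agent.W327.Et.Two1

/-!
# Two levels: the algebras of the second level

Adapted from `Pool.Agent.W559.Mg.V5`, `V6` (helper559).
-/

set_option autoImplicit false
set_option linter.unusedSectionVars false

universe u v w

namespace Pool.Agent.W327.Et

open Pool.Agent.W559.Mg Pool.Agent.W559.Et

section L2s

variable {k K : Type u} [Field k] [Field K] [Algebra k K]

/-- Base algebras of the second level. -/
structure RB (γ : K →ₐ[k] K) (R : Subalgebra k (ML K G3)) : Prop where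
  gr : Gr R
  s : mo (dg (-1) 0 0) 1 ∈ R
  g : ∀ f ∈ R, gm G3 γ f ∈ R
  c : ∀ f ∈ R, ∀ d, f.coeff d ≠ 0 → co2 d = 0

/-- Data of a chart of the first level. -/
structure Ch (γ : K →ₐ[k] K) (p : ℕ) (R : Subalgebra k (ML K G3)) (δ : G3) (x a : K) : Prop where
  ne : x ≠ 0
  fi : γ x = x
  mem : mo δ x ∈ R
  t : mo (dg (-1) 0 0) a ∈ lc R (mo δ x) mem
  ga : γ^[p] a = a + 1

variable {γ : K →ₐ[k] K} {p : ℕ} {R R' : Subalgebra k (ML K G3)}

/-- Markers give charts. -/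
lemma toCh (hc : ∀ f ∈ R, ∀ d, f.coeff d ≠ 0 → co2 d = 0) (hp : p.Prime) {μ φ : G3} {x f : K}
    (hm : IsMark (RT R) co1 γ (γ ^ p) (dg 1 0 0) p μ x φ f)
    (hDS : ∀ f ∈ RT R, Dn (dg 1 0 0) (γ ^ p) f ∈ RT R) :
    Ch γ p R (fo2 μ) x ((dl (γ ^ p))^[p - 2] f * x⁻¹) := by
  have hp1 : p - 1 = (p - 2) + 1 := by have := hp.two_le; omega
  have heq := hm.eq
  rw [Dn_iter_mo] at heq
  obtain ⟨h1, h2⟩ := mo_dg_inj heq.symm hm.ne
  rw [hp1] at h1 h2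
  set b := (dl (γ ^ p))^[p - 2] f with hb
  rw [Function.iterate_succ_apply', ← hb] at h2
  have hbS : mo ((p - 2) • dg 1 0 0 + φ) b ∈ RT R := by
    have h3 : ∀ n, (Dn (dg 1 0 0) (γ ^ p))^[n] (mo φ f) ∈ RT R := by
      intro n
      induction n with
      | zero => exact hm.me
      | succ n ih => rw [Function.iterate_succ_apply']; exact hDS _ ih
    have h4 := h3 (p - 2)
    rwa [Dn_iter_mo] at h4
  have hbR := chd_RT hc hbS
  rw [chd_mo] at hbR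
  have hmem : mo (fo2 μ) x ∈ R := by
    have h3 := chd_RT hc (hm.mem hDS)
    rwa [chd_mo] at h3
  have hpx : (γ ^ p) x = x := by rw [pow_app, Function.iterate_fixed hm.fi]
  refine ⟨hm.ne, hm.fi, hmem, ⟨1, ?_⟩, ?_⟩
  · rw [pow_one, mo_mul]
    have h3 : x * (b * x⁻¹) = b := by
      field_simp [hm.ne]
    have h4 : fo2 μ + dg (-1) 0 0 = fo2 ((p - 2) • dg 1 0 0 + φ) := by
      rw [h1, add_smul, one_smul, map_add, map_add, map_add]
      have h5 : fo2 (dg 1 0 0) = dg 1 0 0 := rfl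
      have h6 : dg 1 0 0 + dg (-1) 0 0 = 0 := rfl
      rw [h5]
      calc fo2 ((p - 2) • dg 1 0 0) + dg 1 0 0 + fo2 φ + dg (-1) 0 0
          = fo2 ((p - 2) • dg 1 0 0) + fo2 φ + (dg 1 0 0 + dg (-1) 0 0) := by abel
        _ = _ := by rw [h6, add_zero]
    rw [h3, h4]
    exact hbR
  · rw [← pow_app, map_mul, map_inv₀, hpx, eq_add_dl (γ ^ p) b, ← h2, add_mul,
      mul_inv_cancel₀ hm.ne]

variable {δ : G3} {x a : K}

/-- The coefficients of the second level. -/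
noncomputable def Ch.WW (l : Ch γ p R δ x a) : Subalgebra k (ML K G3) :=
  lc R (mo δ x) l.mem ⊓ fx (gm G3 γ ^ p)

/-- The algebra of the second level. -/
noncomputable def Ch.SS (l : Ch γ p R δ x a) : Subalgebra k (ML K G3) :=
  S2 (gm G3 γ) p (mo (dg 0 1 0) 1) (mo (dg 0 (-1) 0) 1) l.WW (mo (dg (-1) 0 0) a)

lemma Ch.gt (l : Ch γ p R δ x a) : (gm G3 γ ^ p) (mo (dg (-1) 0 0) a) =
    mo (dg (-1) 0 0) a + mo (dg (-1) 0 0) 1 := by
  rw [pow_app, gm_iter_mo, l.ga, mo_add]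

lemma Ch.dlt (l : Ch γ p R δ x a) (hp : p.Prime) (hpk : (p : k) = 0) :
    (dl (gm G3 γ))^[p] (mo (dg (-1) 0 0) a) = mo (dg (-1) 0 0) 1 := by
  rw [dl_iter_p (gm G3 γ) hp (cast_p (k := k) hpk), gm_iter_mo, l.ga, mo_add, add_sub_cancel_left]

lemma Ch.dlt' (l : Ch γ p R δ x a) (hp : p.Prime) (hpk : (p : k) = 0) :
    (dl (gm G3 γ))^[p + 1] (mo (dg (-1) 0 0) a) = 0 := by
  rw [Function.iterate_succ_apply', l.dlt hp hpk, dl_one]

lemma Ch.T'_mem (l : Ch γ p R δ x a) : mo (dg 0 (-1) 0) 1 ∈ l.SS := S2_T' _ _ _ _ _ _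

lemma Ch.W_mem (l : Ch γ p R δ x a) {w : ML K G3} (hw : w ∈ l.WW) : w ∈ l.SS :=
  S2_W _ _ _ _ _ _ hw

lemma Ch.T'_pow_mem (l : Ch γ p R δ x a) (n : ℕ) : mo (dg 0 (-n) 0) 1 ∈ l.SS := by
  rw [← T'_pow]
  exact Subalgebra.pow_mem _ l.T'_mem n

/-- Everything is fixed by `γ ^ p`. -/
lemma Ch.fixed (l : Ch γ p R δ x a) : l.SS ≤ fx (gm G3 γ ^ p) := by
  refine S2_le _ _ _ _ _ _ ?_ ?_ ?_
  · rw [mem_fx]; exact gmp_one γ p _
  · intro w hw i
    rw [mem_fx, map_mul, dl_pow_comm, mem_fx.1 hw.2, map_pow, gmp_one]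
  · intro i _
    rw [mem_fx, map_mul, dl_pow_comm, l.gt, map_pow, gmp_one, dl_iter_add,
      Function.iterate_succ_apply (dl (gm G3 γ)) i (mo (dg (-1) 0 0) 1), dl_one, dl_iter_zero,
      add_zero]

lemma Ch.D_mem (l : Ch γ p R δ x a) (hp : p.Prime) (hpk : (p : k) = 0) :
    ∀ f ∈ l.SS, Dn (dg 0 p 0) γ f ∈ l.SS := by
  intro f hf
  have h1 := S2_stable (gm G3 γ) p (mo (dg 0 1 0) 1) (mo (dg 0 (-1) 0) 1) l.WW
    (mo (dg (-1) 0 0) a) TT'_one (gm_mo_one γ _) (l.dlt' hp hpk) hf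
  rwa [T_pow] at h1

lemma Ch.nu_mem (l : Ch γ p R δ x a) : mo (-dg 0 p 0) 1 ∈ l.SS := by
  have h1 := l.T'_pow_mem p
  have h2 : -dg 0 (p : ℤ) 0 = dg 0 (-p) 0 := rfl
  rwa [h2]

lemma Ch.g_mem (l : Ch γ p R δ x a) (hp : p.Prime) (hpk : (p : k) = 0) :
    ∀ f ∈ l.SS, gm G3 γ f ∈ l.SS := by
  intro f hf
  rw [gm_eq_Dn γ (dg 0 p 0)]
  exact Subalgebra.add_mem _ hf (Subalgebra.mul_mem _ l.nu_mem (l.D_mem hp hpk f hf))

lemma Ch.gr_WW (l : Ch γ p R δ x a) (hR : RB γ R) : Gr l.WW := by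
  refine gr_inf (gr_lc hR.gr l.mem) ?_
  have h1 : fx (gm G3 γ ^ p) = fx (gm G3 (γ ^ p)) := by
    ext f
    rw [mem_fx, mem_fx, gm_pow]
  rw [h1]
  exact gr_fx _

/-- The homogeneous generators. -/
def Ch.X2 (l : Ch γ p R δ x a) : Set (ML K G3) :=
  {mo (dg 0 (-1) 0) 1} ∪ {f | ∃ d b, mo d b ∈ l.WW ∧ ∃ i : ℕ,
    f = (dl (gm G3 γ))^[i] (mo d b) * (mo (dg 0 1 0) 1) ^ (i * p)} ∪
    {f | ∃ i : ℕ, i < p ∧ f = (dl (gm G3 γ))^[i + 1] (mo (dg (-1) 0 0) a) *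
      (mo (dg 0 1 0) 1) ^ (i * p + 1)}

lemma Ch.X2_hom (l : Ch γ p R δ x a) : ∀ f ∈ l.X2, ∃ d b, f = mo d b := by
  rintro f ((hf | ⟨d, b, -, i, rfl⟩) | ⟨i, -, rfl⟩)
  · exact ⟨_, _, hf⟩
  · rw [dl_iter_mo, T_pow, mo_mul]; exact ⟨_, _, rfl⟩
  · rw [dl_iter_mo, T_pow, mo_mul]; exact ⟨_, _, rfl⟩

lemma Ch.X2_adj (l : Ch γ p R δ x a) (hR : RB γ R) : Algebra.adjoin k l.X2 = l.SS := by
  classical
  apply le_antisymm
  · rw [Algebra.adjoin_le_iff]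
    rintro f ((hf | ⟨d, b, hb, i, rfl⟩) | ⟨i, hi, rfl⟩)
    · rw [Set.mem_singleton_iff.1 hf]; exact l.T'_mem
    · exact S2_w _ _ _ _ _ _ hb i
    · exact S2_t _ _ _ _ _ _ hi
  · refine S2_le _ _ _ _ _ _ ?_ ?_ ?_
    · exact Algebra.subset_adjoin (Or.inl (Or.inl rfl))
    · intro w hw i
      have h1 : ∀ s : Finset G3, (dl (gm G3 γ))^[i] (∑ d ∈ s, mo d (w.coeff d)) *
          (mo (dg 0 1 0) 1) ^ (i * p) ∈ Algebra.adjoin k l.X2 := by
        intro s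
        induction s using Finset.induction_on with
        | empty => rw [Finset.sum_empty, dl_iter_zero, zero_mul]; exact Subalgebra.zero_mem _
        | insert d s hd ih =>
          rw [Finset.sum_insert hd, dl_iter_add, add_mul]
          exact Subalgebra.add_mem _
            (Algebra.subset_adjoin (Or.inl (Or.inr ⟨d, _, l.gr_WW hR w hw d, i, rfl⟩))) ih
      have h2 := h1 w.coeff.support
      rwa [← eq_sum_mo w] at h2
    · intro i hi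
      exact Algebra.subset_adjoin (Or.inr ⟨i, hi, rfl⟩)

lemma Ch.gr_SS (l : Ch γ p R δ x a) (hR : RB γ R) : Gr l.SS := by
  rw [← l.X2_adj hR]
  exact gr_adjoin _ l.X2_hom

theorem Ch.fg (l : Ch γ p R δ x a) (h1 : Algebra.Smooth k l.SS) : l.SS.FG := by
  have h2 : Algebra.FiniteType k l.SS := inferInstance
  exact l.SS.fg_iff_finiteType.2 h2

/-- The algebra of the second level is contained in the chart of the first level. -/
lemma Ch.le {μ : G3} (l : Ch γ p R (fo2 μ) x a) (hR : RB γ R)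
    (hX : mo μ x ∈ RT R) : l.SS ≤ lc (RT R) (mo μ x) hX := by
  set Z := lc (RT R) (mo μ x) hX with hZ
  have hleZ := le_lc (RT R) (mo μ x) hX
  have h1 : lc R (mo (fo2 μ) x) l.mem ≤ Z := by
    rintro f ⟨n, hn⟩
    refine ⟨n, ?_⟩
    have h2 : mo μ x = mo (dg 0 (co2 μ) 0) 1 * mo (fo2 μ) x := by
      rw [mo_mul, one_mul]
      congr 1
      change μ = dg 0 (co2 μ) 0 + dg μ.1 0 μ.2.2.1
      rw [dg_add, zero_add, add_zero, zero_add]
      rfl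
    rw [h2, mul_pow, mul_assoc]
    exact Subalgebra.mul_mem _ (Subalgebra.pow_mem _ (pow_T_mem RT_T RT_T' _) n) (le_RT hn)
  have hg : ∀ f ∈ Z, gm G3 γ f ∈ Z := by
    rintro f ⟨n, hn⟩
    refine ⟨n, ?_⟩
    have h2 := RT_g hR.g _ hn
    rwa [map_mul, map_pow, gm_mo, l.fi] at h2
  have hT : ∀ n : ℕ, (mo (dg 0 1 0) (1 : K)) ^ n ∈ Z := fun n =>
    Subalgebra.pow_mem _ (hleZ RT_T) n
  refine S2_le _ _ _ _ _ _ (hleZ RT_T') ?_ ?_
  · intro w hw i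
    exact Z.mul_mem (dl_iter_mem (gm G3 γ) hg i (h1 hw.1)) (hT _)
  · intro i _
    exact Z.mul_mem (dl_iter_mem (gm G3 γ) hg _ (h1 l.t)) (hT _)

/-- The elements of the chart of the first level, restricted. -/
lemma Ch.chd_lc {μ : G3} (l : Ch γ p R (fo2 μ) x a) (hR : RB γ R) (hX : mo μ x ∈ RT R)
    {f : ML K G3} (hf : f ∈ lc (RT R) (mo μ x) hX) :
    chd k fo2 f ∈ lc R (mo (fo2 μ) x) l.mem := by
  obtain ⟨n, hn⟩ := hf
  refine ⟨n, ?_⟩
  have h1 := chd_RT hR.c hn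
  rwa [map_mul, map_pow, chd_mo] at h1

/-- The elements of the localization of the base are fixed. -/
lemma Ch.chd_fix (l : Ch γ p R δ x a) (hR : RB γ R) {f : ML K G3}
    (hf : f ∈ lc R (mo δ x) l.mem) : chd k fo2 f = f := by
  obtain ⟨n, hn⟩ := hf
  have h1 := chd_of_c (k := k) (hR.c _ hn)
  have h2 := chd_of_c (k := k) (hR.c _ l.mem)
  rw [map_mul, map_pow, h2] at h1
  exact mul_left_cancel₀ (pow_ne_zero n (mo_ne_zero l.ne)) h1

/-- The part of nonpositive degree. -/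
lemma Ch.neg {μ : G3} (l : Ch γ p R (fo2 μ) x a) (hR : RB γ R)
    (hX : mo μ x ∈ RT R) {d : G3} {b : K} (hd : co2 d ≤ 0)
    (hb : mo d b ∈ lc (RT R) (mo μ x) hX ⊓ fx (gm G3 γ)) : mo d b ∈ l.SS := by
  obtain ⟨hb1, hb2⟩ := hb
  have h1 := l.chd_lc hR hX hb1
  rw [chd_mo] at h1
  rw [SetLike.mem_coe, mem_fx, gm_mo] at hb2
  have h2 : mo (fo2 d) b ∈ l.WW := by
    refine ⟨h1, ?_⟩
    rw [SetLike.mem_coe, mem_fx, pow_app, gm_iter_mo, Function.iterate_fixed (mo_inj hb2)]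
  obtain ⟨e, he⟩ := Int.eq_ofNat_of_zero_le (a := -co2 d) (by omega)
  have h3 := Subalgebra.mul_mem _ (l.T'_pow_mem e) (l.W_mem h2)
  rw [mo_mul, one_mul] at h3
  have h4 : dg 0 (-e) 0 + fo2 d = d := by
    change dg 0 (-e) 0 + dg d.1 0 d.2.2.1 = d
    rw [dg_add, zero_add, add_zero, zero_add]
    have h5 : -(e : ℤ) = co2 d := by
      have h6 : -co2 d = (e : ℤ) := he
      omega
    rw [h5]
    rfl
  rwa [h4] at h3

/-- The charts are compatible. -/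
lemma Ch.gl {μ μ' : G3} {x' a' : K} (l : Ch γ p R (fo2 μ) x a) (l' : Ch γ p R' (fo2 μ') x' a')
    (hR : RB γ R) (hR' : RB γ R') (hp : p.Prime) (hX : mo μ x ∈ RT R) (hX' : mo μ' x' ∈ RT R')
    {ρ : K} (hρ : mo 0 ρ ∈ lc (RT R) (mo μ x) hX ⊓ fx (gm G3 γ))
    (hgl : ∀ f ∈ lc (RT R') (mo μ' x') hX', ∃ n : ℕ, mo 0 ρ ^ n * f ∈ lc (RT R) (mo μ x) hX) :
    ∀ f ∈ l'.SS, ∃ n : ℕ, mo 0 ρ ^ n * f ∈ l.SS := by
  have hγρ : gm G3 γ (mo 0 ρ) = mo 0 ρ := mem_fx.1 hρ.2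
  have hfx : ∀ n : ℕ, (mo 0 ρ ^ n : ML K G3) ∈ fx (gm G3 γ) := fun n => by
    rw [mem_fx, map_pow, hγρ]
  have hfxp : ∀ n : ℕ, (gm G3 γ ^ p) (mo 0 ρ ^ n : ML K G3) = mo 0 ρ ^ n := fun n => by
    rw [pow_app, Function.iterate_fixed (mem_fx.1 (hfx n))]
  have hcρ : chd k fo2 (mo 0 ρ : ML K G3) = mo 0 ρ := by rw [chd_mo, map_zero]
  have hρW : mo 0 ρ ∈ lc R (mo (fo2 μ) x) l.mem := by
    have h1 := l.chd_lc hR hX hρ.1
    rwa [hcρ] at h1
  have hρS : mo 0 ρ ∈ l.SS := by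
    refine l.W_mem ⟨hρW, ?_⟩
    have h1 := hfxp 1
    rw [pow_one] at h1
    exact mem_fx.2 h1
  -- transport of elements of the localization of the base
  have key : ∀ w ∈ lc R' (mo (fo2 μ') x') l'.mem, ∃ n : ℕ,
      mo 0 ρ ^ n * w ∈ lc R (mo (fo2 μ) x) l.mem := by
    intro w hw
    have h1 : w ∈ lc (RT R') (mo μ' x') hX' := by
      obtain ⟨n, hn⟩ := hw
      refine ⟨n, ?_⟩
      have h2 : mo μ' x' = mo (dg 0 (co2 μ') 0) 1 * mo (fo2 μ') x' := by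
        rw [mo_mul, one_mul]
        congr 1
        change μ' = dg 0 (co2 μ') 0 + dg μ'.1 0 μ'.2.2.1
        rw [dg_add, zero_add, add_zero, zero_add]
        rfl
      rw [h2, mul_pow, mul_assoc]
      exact Subalgebra.mul_mem _ (Subalgebra.pow_mem _ (pow_T_mem RT_T RT_T' _) n) (le_RT hn)
    obtain ⟨n, hn⟩ := hgl w h1
    refine ⟨n, ?_⟩
    have h2 := l.chd_lc hR hX hn
    rwa [map_mul, map_pow, hcρ, l'.chd_fix hR' hw] at h2
  have hsub : l'.SS ≤ lc l.SS (mo 0 ρ) hρS := by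
    refine S2_le _ _ _ _ _ _ (le_lc _ _ _ l.T'_mem) ?_ ?_
    · rintro w ⟨hw1, hw⟩ i
      obtain ⟨n, hn⟩ := key w hw1
      refine ⟨n, ?_⟩
      rw [← mul_assoc, ← dl_iter_fx_mul _ (hfx n)]
      have hw' : mo 0 ρ ^ n * w ∈ l.WW := by
        refine ⟨hn, ?_⟩
        rw [SetLike.mem_coe, mem_fx, map_mul, hfxp, mem_fx.1 hw]
      exact S2_w _ _ _ _ _ _ hw' i
    · intro i hi
      obtain ⟨n, hn⟩ := key _ l'.t
      refine ⟨n, ?_⟩
      set t := mo (dg (-1) 0 0) a with ht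
      set t' := mo (dg (-1) 0 0) a' with ht'
      have h1 : mo 0 ρ ^ n * (t' - t) ∈ l.WW := by
        refine ⟨?_, ?_⟩
        · rw [mul_sub]
          exact Subalgebra.sub_mem _ hn
            (Subalgebra.mul_mem _ (Subalgebra.pow_mem _ hρW n) l.t)
        · rw [SetLike.mem_coe, mem_fx, map_mul, hfxp, map_sub, ht, ht', l.gt, l'.gt]
          ring
      have h2 := S2_w (gm G3 γ) p (mo (dg 0 1 0) 1) (mo (dg 0 (-1) 0) 1) l.WW t h1 (i + 1)
      have h3 := S2_t (gm G3 γ) p (mo (dg 0 1 0) 1) (mo (dg 0 (-1) 0) 1) l.WW t hi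
      have h4 : mo 0 ρ ^ n * ((dl (gm G3 γ))^[i + 1] t' * (mo (dg 0 1 0) 1) ^ (i * p + 1)) =
          mo 0 ρ ^ n * ((dl (gm G3 γ))^[i + 1] t * (mo (dg 0 1 0) 1) ^ (i * p + 1)) +
          ((dl (gm G3 γ))^[i + 1] (mo 0 ρ ^ n * (t' - t)) *
            (mo (dg 0 1 0) 1) ^ ((i + 1) * p)) *
            (mo (dg 0 (-1) 0) 1) ^ ((i + 1) * p - (i * p + 1)) := by
        have h5 : i * p + 1 ≤ (i + 1) * p := by
          have := hp.pos
          rw [add_mul, one_mul]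
          omega
        have h6 := T_pow_sub (mo (dg 0 1 0) (1 : K)) (mo (dg 0 (-1) 0) 1) TT'_one h5
        rw [h6, dl_iter_fx_mul _ (hfx n), dl_iter_sub]
        ring
      rw [h4]
      exact Subalgebra.add_mem _ (Subalgebra.mul_mem _ (Subalgebra.pow_mem _ hρS n) h3)
        (Subalgebra.mul_mem _ h2 (Subalgebra.pow_mem _ l.T'_mem _))
  exact fun f hf => hsub hf

/-- A homogeneous element of `WW` has degree zero. -/
lemma Ch.WW_deg (l : Ch γ p R δ x a) (hR : RB γ R) {d : G3} {b : K} (hb : mo d b ∈ l.WW)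
    (hb0 : b ≠ 0) : co2 d = 0 := by
  have h3 := l.chd_fix hR hb.1
  rw [chd_mo] at h3
  have h4 := (mo_dg_inj h3 ((fun h => hb0 h) : b ≠ 0)).1
  rw [← h4]
  rfl

/-- The norm. -/
lemma Ch.N_mem (l : Ch γ p R δ x a) (hR : RB γ R) (hp : p.Prime) (hpk : (p : k) = 0) :
    mo (dg (-1) 0 0) a ^ p - mo (dg (-1) 0 0) 1 ^ (p - 1) * mo (dg (-1) 0 0) a ∈ l.WW := by
  have hpD : ((p : ℕ) : ML K G3) = 0 := cast_p (k := k) hpk
  refine ⟨?_, ?_⟩
  · exact Subalgebra.sub_mem _ (Subalgebra.pow_mem _ l.t p)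
      (Subalgebra.mul_mem _ (Subalgebra.pow_mem _ (le_lc _ _ _ hR.s) _) l.t)
  · rw [SetLike.mem_coe, mem_fx, map_sub, map_mul, map_pow, map_pow, l.gt, gmp_one]
    set t := mo (dg (-1) 0 0) a
    set s : ML K G3 := mo (dg (-1) 0 0) 1
    have h3 : (t + s) ^ p = t ^ p + s ^ p := by
      have : Fact p.Prime := ⟨hp⟩
      have hchar : CharP (ML K G3) p := (CharP.charP_iff_prime_eq_zero hp).2 hpD
      rw [add_pow_char]
    have h4 : s ^ p = s ^ (p - 1) * s := by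
      rw [← pow_succ, Nat.sub_add_cancel hp.one_lt.le]
    rw [h3, h4]
    ring

/-- Vanishing of the generators of positive degree. -/
theorem Ch.HQ (l : Ch γ p R δ x a) (hR : RB γ R) (hp : p.Prime) (hpk : (p : k) = 0)
    (Q : Ideal l.SS) (hQ : Q.IsPrime)
    (hQD : ∀ f : l.SS, (⟨Dn (dg 0 p 0) γ f, l.D_mem hp hpk f f.2⟩ : l.SS) ∈ Q)
    (d : G3) (b : K) (hdb : mo d b ∈ l.SS) (hX : mo d b ∈ l.X2) (hd : 0 < co2 d) :
    (⟨mo d b, hdb⟩ : l.SS) ∈ Q := by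
  by_cases hb : b = 0
  · subst hb
    have h1 : (⟨mo d 0, hdb⟩ : l.SS) = 0 := Subtype.ext (mo_zero d)
    rw [h1]
    exact Q.zero_mem
  have hstep : ∀ f, ∀ hf : f ∈ l.SS, ∀ g, ∀ hg : g ∈ l.SS, g = Dn (dg 0 p 0) γ f →
      (⟨g, hg⟩ : l.SS) ∈ Q := by
    intro f hf g hg hgf
    have h1 := hQD ⟨f, hf⟩
    have h2 : (⟨g, hg⟩ : l.SS) = ⟨Dn (dg 0 p 0) γ f, l.D_mem hp hpk f hf⟩ := Subtype.ext hgf
    rw [h2]
    exact h1
  have htS : ∀ i, i < p → (dl (gm G3 γ))^[i + 1] (mo (dg (-1) 0 0) a) *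
      (mo (dg 0 1 0) 1) ^ (i * p + 1) ∈ l.SS := fun i hi => S2_t _ _ _ _ _ _ hi
  have htQ : ∀ i, ∀ hi : i + 1 < p, (⟨_, htS (i + 1) hi⟩ : l.SS) ∈ Q := by
    intro i hi
    refine hstep _ (htS i (by omega)) _ _ ?_
    rw [Dn_T]
    congr 2
    ring
  rcases hX with (hX | ⟨d', b', hb', i, hi⟩) | ⟨i, hi, hX⟩
  · have h1 := (mo_dg_inj (Set.mem_singleton_iff.1 hX) hb).1
    rw [h1, co2_dg] at hd
    omega
  · rcases i with _ | i
    · rw [zero_mul, pow_zero, mul_one] at hi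
      change mo d b = mo d' b' at hi
      rw [← hi] at hb'
      have h1 := l.WW_deg hR hb' hb
      omega
    · refine hstep _ (S2_w _ _ _ _ _ _ hb' i) _ _ ?_
      rw [Dn_T, hi]
      congr 2
      ring
  · rcases i with _ | i
    · -- the first derivative
      rw [zero_mul, zero_add] at hX
      set t := mo (dg (-1) 0 0) a with ht
      set s : ML K G3 := mo (dg (-1) 0 0) 1 with hs
      set T : ML K G3 := mo (dg 0 1 0) 1 with hT
      have hpD : ((p : ℕ) : ML K G3) = 0 := cast_p (k := k) hpk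
      have hp2 := hp.two_le
      have hsT : s * T ∈ l.SS ∧ ∀ hsT : s * T ∈ l.SS, (⟨s * T, hsT⟩ : l.SS) ∈ Q := by
        obtain ⟨e, he⟩ : ∃ e, p = e + 2 := ⟨p - 2, by omega⟩
        have h1 := htQ e (by omega)
        have h2 := htS (e + 1) (by omega)
        have h3 : (dl (gm G3 γ))^[e + 1 + 1] t = s := by
          have h4 := l.dlt hp hpk
          rw [he] at h4
          exact h4
        have h4 : s * T = mo (dg 0 (-1) 0) 1 ^ ((e + 1) * p) *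
            ((dl (gm G3 γ))^[e + 1 + 1] t * T ^ ((e + 1) * p + 1)) := by
          rw [h3, pow_succ]
          have h5 : mo (dg 0 (-1) 0) 1 ^ ((e + 1) * p) * T ^ ((e + 1) * p) = 1 := by
            rw [← mul_pow, mul_comm, TT'_one, one_pow]
          linear_combination (-(s * T)) * h5
        have h5 := Subalgebra.pow_mem _ l.T'_mem ((e + 1) * p)
        have h6 : s * T ∈ l.SS := by rw [h4]; exact Subalgebra.mul_mem _ h5 h2
        refine ⟨h6, fun h7 => ?_⟩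
        have h8 : (⟨s * T, h7⟩ : l.SS) = ⟨_, h5⟩ * ⟨_, h2⟩ := Subtype.ext h4
        rw [h8]
        exact Q.mul_mem_left _ h1
      have ha1 : dl (gm G3 γ) t * T ∈ l.SS := by
        have h1 := htS 0 hp.pos
        rwa [zero_mul, zero_add, pow_one] at h1
      have hN := l.W_mem (l.N_mem hR hp hpk)
      have hDN := hQD ⟨_, hN⟩
      have hdN : Dn (dg 0 p 0) γ (t ^ p - s ^ (p - 1) * t) =
          (dl (gm G3 γ) t * T) ^ p - (s * T) ^ (p - 1) * (dl (gm G3 γ) t * T) := by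
        have hsf : s ^ (p - 1) ∈ fx (gm G3 γ) := by rw [mem_fx, map_pow, gm_mo_one]
        have h1 : dl (gm G3 γ) (t ^ p) = dl (gm G3 γ) t ^ p := by
          have : Fact p.Prime := ⟨hp⟩
          have hchar : CharP (ML K G3) p := (CharP.charP_iff_prime_eq_zero hp).2 hpD
          have h2 : gm G3 γ (t ^ p) = t ^ p + dl (gm G3 γ) t ^ p := by
            rw [map_pow, eq_add_dl, add_pow_char]
          unfold dl at h2 ⊢
          rw [h2]
          ring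
        have h2 : T ^ p = T ^ (p - 1) * T := by
          rw [← pow_succ, Nat.sub_add_cancel hp.one_lt.le]
        unfold Dn
        rw [← T_pow, dl_sub, dl_fx_mul _ hsf, h1, mul_pow, mul_pow, ← hT]
        linear_combination (-(s ^ (p - 1) * dl (gm G3 γ) t)) * h2
      have h9 : (⟨dl (gm G3 γ) t * T, ha1⟩ : l.SS) ^ p =
          ⟨Dn (dg 0 p 0) γ (t ^ p - s ^ (p - 1) * t), l.D_mem hp hpk _ hN⟩ +
          (⟨s * T, hsT.1⟩ : l.SS) ^ (p - 1) * ⟨dl (gm G3 γ) t * T, ha1⟩ := by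
        apply Subtype.ext
        change (dl (gm G3 γ) t * T) ^ p = Dn (dg 0 p 0) γ (t ^ p - s ^ (p - 1) * t) +
          (s * T) ^ (p - 1) * (dl (gm G3 γ) t * T)
        rw [hdN]
        ring
      have h10 : (⟨dl (gm G3 γ) t * T, ha1⟩ : l.SS) ^ p ∈ Q := by
        rw [h9]
        refine Q.add_mem hDN (Q.mul_mem_right _ ?_)
        obtain ⟨e, he⟩ : ∃ e, p - 1 = e + 1 := ⟨p - 2, by omega⟩
        rw [he, pow_succ]
        exact Q.mul_mem_left _ (hsT.2 _)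
      have h11 := hQ.mem_of_pow_mem _ h10
      have h12 : (⟨mo d b, hdb⟩ : l.SS) = ⟨dl (gm G3 γ) t * T, ha1⟩ := by
        apply Subtype.ext
        change mo d b = dl (gm G3 γ) t * T
        rw [hX, pow_one]
        rfl
      rw [h12]
      exact h11
    · have h1 := htQ i (by omega)
      have h2 : (⟨mo d b, hdb⟩ : l.SS) = ⟨_, htS (i + 1) (by omega)⟩ := Subtype.ext hX
      rw [h2]
      exact h1

end L2s

/-- **The atlas in the case of two levels.** -/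
theorem two (hLev : LevelStm.{u}) (hOf : OfPbStm.{u}) : TwoStm.{u} := by
  intro k K _ _ _ γ p hp hpk hγ 𝒱 Kf 𝒜 W E T _ C H hPB R hR hsm
  have hpK : ((p : ℕ) : K) = 0 := cast_p (k := k) hpk
  have hRB : ∀ t, RB γ (R t) := fun t => ⟨hR.gr t, hR.s t, hR.g t, hR.c t⟩
  obtain ⟨J, hJ, μ, x, φ, f, hm, L, N, u, hL, hu, hpb⟩ := lev1 hLev hp hpk hγ hPB hR
  have l : ∀ q : Σ t, J t, Ch γ p (R q.1) (fo2 (μ q.1 q.2)) (x q.1 q.2)
      ((dl (γ ^ p))^[p - 2] (f q.1 q.2) * (x q.1 q.2)⁻¹) := fun q =>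
    toCh (hR.c q.1) hp (hm q.1 q.2) (RT_D (hR.s q.1) (hR.D q.1))
  have hls : ∀ q, Algebra.Smooth k (l q).SS := fun q =>
    hsm q.1 _ _ _ (l q).mem (l q).ne (l q).fi (l q).t (l q).ga
  have hfxp : ∀ q, ∀ f ∈ (l q).SS, (gm G3 γ)^[p] f = f := fun q f hf => by
    rw [← pow_app]
    exact mem_fx.1 ((l q).fixed hf)
  obtain ⟨J', hJ', μ', x', φ', f', hm', L', N', u', hL', hu', hpb'⟩ :=
    hLev k K G3 𝒱 Kf 𝒜 W γ _ _ _ _ hpb co2 (fun q => (l q).SS)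
    (fun q => (l q).le (hRB q.1) _) (fun q => (l q).gr_SS (hRB q.1))
    (fun q d b hd hb => (l q).neg (hRB q.1) _ hd hb)
    (fun q q' => (l q).gl (l q') (hRB q.1) (hRB q'.1) hp _ _ (hpb.rt q q') (hpb.gl q q'))
    p hp hpk γ (dg 0 p 0) (fun _ => rfl) (fun _ hx => hx)
    (fun q => (l q).g_mem hp hpk) (fun q => (l q).D_mem hp hpk) (fun q => (l q).nu_mem) hfxp
    p hp.pos hfxp (fun q => (l q).X2) (fun q => (l q).X2_hom)
    (fun q => (l q).X2_adj (hRB q.1)) (fun q => (l q).fg (hls q))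
    (fun q Q hQ hQD d b hdb hX hd => (l q).HQ (hRB q.1) hp hpk Q hQ hQD d b hdb hX hd)
    (fun q => by
      have h1 := S2_t (gm G3 γ) p (mo (dg 0 1 0) 1) (mo (dg 0 (-1) 0) 1) (l q).WW
        (mo (dg (-1) 0 0) ((dl (γ ^ p))^[p - 2] (f q.1 q.2) * (x q.1 q.2)⁻¹))
        (i := p - 1) (by have := hp.pos; omega)
      rw [Nat.sub_add_cancel hp.one_lt.le, (l q).dlt hp hpk, T_pow, mo_mul, one_mul] at h1
      refine ⟨_, _, one_ne_zero, ?_, h1⟩
      rw [map_add, co2_dg, co2_dg, zero_add]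
      positivity)
  refine ⟨Σ q, J' q, inferInstance, _, _, _, hOf k K G3 𝒱 Kf 𝒜 W _ _ _ _ _ hpb' ?_⟩
  rintro ⟨q, j⟩
  exact chart_smooth hp hpk (hm' q j) ((l q).D_mem hp hpk) (l q).nu_mem (hfxp q) (hls q)

end Pool.Agent.W327.Et
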